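import Mathlib
import Pool.Agent.TH739.PA.Act

/-!
# One-sided averages: second moments and summability
-/

set_option autoImplicit false

open Filter Topology MeasureTheory Set
open scoped ENNReal NNReal symmDiff

noncomputable section

namespace Pool.Agent.TH739.PS

open Pool.Agent.TH739.PA (av avr LP mx mx_nonneg sq two_sided Icc_card Good)

/-- The maximum of the two coordinates. -/
def mn (p : ℕ × ℕ) : ℝ := max (p.1 : ℝ) (p.2 : ℝ)

theorem mn_nonneg (p : ℕ × ℕ) : 0 ≤ mn p := le_max_of_le_left (Nat.cast_nonneg _)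

/-- Almost sure summability. -/
theorem ae_summable {Y S : Type*} [MeasurableSpace Y] {ν : Measure Y} [IsProbabilityMeasure ν]
    [Countable S] {g : S → Y → ℝ} (hg : ∀ p, Measurable (g p))
    (h0 : ∀ p y, 0 ≤ g p y) {C : ℝ} (hb : ∀ p, ∀ᵐ y ∂ν, g p y ≤ C)
    (hs : Summable fun p => ∫ y, g p y ∂ν) :
    ∀ᵐ y ∂ν, Summable fun p => g p y := by
  have hi : ∀ p, Integrable (g p) ν := fun p =>
    Integrable.of_bound (hg p).aestronglyMeasurable C (by
      filter_upwards [hb p] with y hy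
      rw [Real.norm_of_nonneg (h0 _ _)]
      exact hy)
  have h1 : ∫⁻ y, ∑' p, ENNReal.ofReal (g p y) ∂ν ≠ ∞ := by
    rw [lintegral_tsum fun p => ((hg p).ennreal_ofReal).aemeasurable]
    have h2 : ∀ p, ∫⁻ y, ENNReal.ofReal (g p y) ∂ν = ENNReal.ofReal (∫ y, g p y ∂ν) := fun p =>
      (ofReal_integral_eq_lintegral_ofReal (hi p) (Eventually.of_forall fun y => h0 p y)).symm
    simp only [h2]
    rw [← ENNReal.ofReal_tsum_of_nonneg (fun p => integral_nonneg fun y => h0 p y) hs]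
    exact ENNReal.ofReal_ne_top
  have h3 := ae_lt_top' (by fun_prop) h1
  filter_upwards [h3] with y hy
  have h4 := ENNReal.summable_toReal hy.ne
  refine h4.congr fun p => ?_
  rw [ENNReal.toReal_ofReal (h0 p y)]

/-- the embedding of pairs -/
def emb (p : ℕ × ℕ) : ℤ × ℤ := ((p.1 : ℤ), (p.2 : ℤ))

theorem emb_inj : Function.Injective emb := by
  rintro ⟨a, b⟩ ⟨c, d⟩ h
  simp only [emb, Prod.mk.injEq, Nat.cast_inj] at h
  exact Prod.ext h.1 h.2

theorem mx_emb (p : ℕ × ℕ) : mx (emb p) = mn p := by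
  simp [mx, mn, emb]

/-- **One-sided averages.** -/
theorem LP_Icc {q : ℕ × ℕ → ℝ} (hq : ∀ p, 0 ≤ q p)
    (hs : Summable fun p => q p / (1 + mn p) ^ 2) :
    LP atTop (fun N : ℕ => Finset.Icc 1 N) q := by
  classical
  intro Z _ P _ ξ h1 h2 h3
  let ξ' : ℤ → Z → ℝ := fun n z => if 1 ≤ n then ξ n.toNat z else 0
  let q' : ℤ × ℤ → ℝ := Function.extend emb q 0
  have hq' : ∀ p, 0 ≤ q' p := by
    intro p
    by_cases h : ∃ r, emb r = p
    · obtain ⟨r, rfl⟩ := h
      show 0 ≤ Function.extend emb q 0 (emb r)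
      rw [emb_inj.extend_apply]
      exact hq r
    · show 0 ≤ Function.extend emb q 0 p
      rw [Function.extend_apply' _ _ _ h]
      exact le_rfl
  have hs' : Summable fun p => q' p / (1 + mx p) ^ 2 := by
    have e : (fun p => q' p / (1 + mx p) ^ 2) =
        Function.extend emb (fun p => q p / (1 + mn p) ^ 2) 0 := by
      funext p
      by_cases h : ∃ r, emb r = p
      · obtain ⟨r, rfl⟩ := h
        rw [emb_inj.extend_apply, mx_emb]
        show Function.extend emb q 0 (emb r) / _ = _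
        rw [emb_inj.extend_apply]
      · rw [Function.extend_apply' _ _ _ h]
        show Function.extend emb q 0 p / _ = 0
        rw [Function.extend_apply' _ _ _ h]
        simp
    rw [e]
    exact (summable_extend_zero emb_inj).mpr hs
  have hsum : ∀ (N : ℕ) (z : Z), ∑ n ∈ Finset.Icc (-(N : ℤ)) N, ξ' n z =
      ∑ n ∈ Finset.Icc 1 N, ξ n z := by
    intro N z
    have e1 : ∑ n ∈ Finset.Icc 1 N, ξ n z = ∑ n ∈ (Finset.Icc 1 N).map ⟨fun n : ℕ => (n : ℤ),
        Nat.cast_injective⟩, ξ' n z := by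
      rw [Finset.sum_map]
      refine Finset.sum_congr rfl fun n hn => ?_
      have h4 := (Finset.mem_Icc.mp hn).1
      show ξ n z = if 1 ≤ (n : ℤ) then ξ (n : ℤ).toNat z else 0
      rw [if_pos (by exact_mod_cast h4), Int.toNat_natCast]
    rw [e1]
    symm
    refine Finset.sum_subset (fun n hn => ?_) fun n hn hn' => ?_
    · rw [Finset.mem_map] at hn
      obtain ⟨r, hr, rfl⟩ := hn
      rw [Finset.mem_Icc] at hr ⊢
      show -(N : ℤ) ≤ (r : ℤ) ∧ (r : ℤ) ≤ N
      omega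
    · show (if 1 ≤ n then ξ n.toNat z else 0) = 0
      rw [if_neg]
      intro h4
      apply hn'
      rw [Finset.mem_map]
      refine ⟨n.toNat, ?_, ?_⟩
      · rw [Finset.mem_Icc] at hn ⊢
        omega
      · show ((n.toNat : ℕ) : ℤ) = n
        exact Int.toNat_of_nonneg (by omega)
  have hvar : ∀ N : ℕ, ∫ z, (∑ n ∈ Finset.Icc (-(N : ℤ)) N, ξ' n z) ^ 2 ∂P ≤
      ∑ p ∈ sq N, q' p := by
    intro N
    simp only [hsum]
    refine (h3 N).trans ?_
    have e1 : ∑ p ∈ Finset.Icc 1 N ×ˢ Finset.Icc 1 N, q p =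
        ∑ p ∈ (Finset.Icc 1 N ×ˢ Finset.Icc 1 N).map ⟨emb, emb_inj⟩, q' p := by
      rw [Finset.sum_map]
      refine Finset.sum_congr rfl fun p _ => ?_
      show q p = Function.extend emb q 0 (emb p)
      rw [emb_inj.extend_apply]
    rw [e1]
    refine Finset.sum_le_sum_of_subset_of_nonneg (fun p hp => ?_) fun p _ _ => hq' p
    rw [Finset.mem_map] at hp
    obtain ⟨r, hr, rfl⟩ := hp
    rw [Finset.mem_product, Finset.mem_Icc, Finset.mem_Icc] at hr
    show emb r ∈ Finset.Icc (-(N : ℤ)) N ×ˢ Finset.Icc (-(N : ℤ)) N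
    rw [Finset.mem_product, Finset.mem_Icc, Finset.mem_Icc]
    simp only [emb]
    omega
  have hξ'm : ∀ n, Measurable (ξ' n) := by
    intro n
    by_cases h : 1 ≤ n
    · have : ξ' n = ξ n.toNat := funext fun z => if_pos h
      rw [this]
      exact h1 _
    · have : ξ' n = fun _ => 0 := funext fun z => if_neg h
      rw [this]
      exact measurable_const
  have hξ'b : ∀ n z, |ξ' n z| ≤ 1 := by
    intro n z
    show |if 1 ≤ n then ξ n.toNat z else 0| ≤ 1
    split_ifs
    · exact h2 _ _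
    · simp
  have hmain := two_sided hξ'm hξ'b hq' hs' hvar
  filter_upwards [hmain] with z hz
  have h5 : Tendsto (fun N : ℕ => (2 * (N : ℝ) + 1) / N) atTop (𝓝 2) := by
    have h1 := (tendsto_one_div_atTop_nhds_zero_nat (𝕜 := ℝ)).const_add 2
    rw [add_zero] at h1
    refine h1.congr' ?_
    filter_upwards [eventually_gt_atTop 0] with N hN
    have : (N : ℝ) ≠ 0 := by exact_mod_cast hN.ne'
    field_simp
  have h6 := h5.mul hz
  rw [mul_zero] at h6
  refine h6.congr fun N => ?_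
  rw [avr, avr, Icc_card, hsum, Nat.card_Icc, Nat.add_sub_cancel]
  push_cast
  have h7 : (2 * (N : ℝ) + 1) ≠ 0 := by positivity
  rw [div_mul_eq_mul_div, mul_inv_cancel_left₀ h7, div_eq_inv_mul]

/-- Sums over shifted squares. -/
theorem sum_sq (h : ℕ) : Summable (fun n : ℕ => 1 / (1 + (n : ℝ) + (h : ℝ)) ^ 2) ∧
    ∑' n : ℕ, 1 / (1 + (n : ℝ) + (h : ℝ)) ^ 2 ≤ 2 / (1 + (h : ℝ)) := by
  have hb : ∀ N : ℕ, ∑ n ∈ Finset.range (N + 1), 1 / (1 + (n : ℝ) + (h : ℝ)) ^ 2 ≤
      2 / (1 + (h : ℝ)) - 1 / (1 + (N : ℝ) + (h : ℝ)) := by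
    intro N
    induction N with
    | zero =>
      have h0 : (0 : ℝ) ≤ h := Nat.cast_nonneg h
      rw [zero_add, Finset.sum_range_one, Nat.cast_zero, add_zero, ← sub_div,
        div_le_div_iff₀ (by positivity) (by positivity)]
      nlinarith
    | succ N ih =>
      rw [Finset.sum_range_succ]
      have h0 : (0 : ℝ) ≤ h := Nat.cast_nonneg h
      have h1 : (0 : ℝ) < 1 + (N : ℝ) + (h : ℝ) := by positivity
      have h3 : 1 / (1 + ((N + 1 : ℕ) : ℝ) + (h : ℝ)) ^ 2 ≤
          1 / (1 + (N : ℝ) + (h : ℝ)) - 1 / (1 + ((N + 1 : ℕ) : ℝ) + (h : ℝ)) := by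
        push_cast
        have h2 : (0 : ℝ) < 1 + ((N : ℝ) + 1) + (h : ℝ) := by positivity
        rw [div_sub_div _ _ h1.ne' h2.ne', div_le_div_iff₀ (by positivity) (by positivity)]
        nlinarith
      linarith
  have hb' : ∀ N : ℕ, ∑ n ∈ Finset.range N, 1 / (1 + (n : ℝ) + (h : ℝ)) ^ 2 ≤
      2 / (1 + (h : ℝ)) := by
    intro N
    cases N with
    | zero =>
      rw [Finset.range_zero, Finset.sum_empty]
      positivity
    | succ N =>
      refine (hb N).trans ?_
      have : (0 : ℝ) < 1 / (1 + (N : ℝ) + (h : ℝ)) := by positivity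
      linarith
  exact ⟨summable_of_sum_range_le (fun n => by positivity) hb',
    Real.tsum_le_of_sum_range_le (fun n => by positivity) hb'⟩

/-- subseries -/
theorem sub_summable {r : ℕ → ℝ} (hr : ∀ h, 0 ≤ r h)
    (hs : Summable fun h : ℕ => r h / ((h : ℝ) + 1)) {a : ℕ} (ha : 0 < a) :
    Summable fun h : ℕ => r (a * h) / ((h : ℝ) + 1) := by
  have h1 : Function.Injective fun h : ℕ => a * h := fun x y hxy =>
    Nat.eq_of_mul_eq_mul_left ha hxy
  have h2 := (hs.comp_injective h1).mul_left (a : ℝ)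
  refine Summable.of_nonneg_of_le (fun h => div_nonneg (hr _) (by positivity)) (fun h => ?_) h2
  show r (a * h) / ((h : ℝ) + 1) ≤ a * (r (a * h) / (((a * h : ℕ) : ℝ) + 1))
  have h3 : (1 : ℝ) ≤ a := by exact_mod_cast ha
  have h4 : (0 : ℝ) ≤ h := Nat.cast_nonneg h
  rw [← mul_div_assoc, div_le_div_iff₀ (by positivity) (by positivity), mul_comm (a : ℝ), mul_assoc]
  refine mul_le_mul_of_nonneg_left ?_ (hr _)
  push_cast
  nlinarith

/-- Double sums. -/
theorem sum_diff {r : ℕ → ℝ} (hr : ∀ h, 0 ≤ r h)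
    (hs : Summable fun h : ℕ => r h / ((h : ℝ) + 1)) {q : ℕ × ℕ → ℝ} (hq : ∀ p, 0 ≤ q p)
    (h1 : ∀ n h, q (n, n + h) ≤ r h) (h2 : ∀ n h, q (n + h, n) ≤ r h) :
    Summable fun p => q p / (1 + mn p) ^ 2 := by
  classical
  have hF : Summable fun p : ℕ × ℕ => r p.1 / (1 + (p.2 : ℝ) + (p.1 : ℝ)) ^ 2 := by
    rw [summable_prod_of_nonneg fun p => div_nonneg (hr _) (by positivity)]
    refine ⟨fun h => ?_, ?_⟩
    · refine ((sum_sq h).1.mul_left (r h)).congr fun n => ?_
      show r h * (1 / (1 + (n : ℝ) + (h : ℝ)) ^ 2) = r h / (1 + (n : ℝ) + (h : ℝ)) ^ 2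
      rw [mul_one_div]
    · refine Summable.of_nonneg_of_le (fun h => tsum_nonneg fun n => div_nonneg (hr _)
        (by positivity)) (fun h => ?_) (hs.mul_left 2)
      have e : (fun n : ℕ => r h / (1 + (n : ℝ) + (h : ℝ)) ^ 2) =
          fun n : ℕ => r h * (1 / (1 + (n : ℝ) + (h : ℝ)) ^ 2) := by
        funext n
        rw [mul_one_div]
      show ∑' n : ℕ, r h / (1 + (n : ℝ) + (h : ℝ)) ^ 2 ≤ 2 * (r h / ((h : ℝ) + 1))
      rw [e, tsum_mul_left]
      refine (mul_le_mul_of_nonneg_left (sum_sq h).2 (hr h)).trans (le_of_eq ?_)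
      rw [add_comm (1 : ℝ)]
      ring
  let e₁ : ℕ × ℕ → ℕ × ℕ := fun p => (p.2, p.2 + p.1)
  let e₂ : ℕ × ℕ → ℕ × ℕ := fun p => (p.2 + p.1, p.2)
  have he₁ : Function.Injective e₁ := by
    rintro ⟨a, b⟩ ⟨c, d⟩ h
    simp only [e₁, Prod.mk.injEq] at h
    ext <;> simp only <;> omega
  have he₂ : Function.Injective e₂ := by
    rintro ⟨a, b⟩ ⟨c, d⟩ h
    simp only [e₂, Prod.mk.injEq] at h
    ext <;> simp only <;> omega
  have hm1 : ∀ p, mn (e₁ p) = (p.2 : ℝ) + p.1 := by
    intro p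
    simp only [mn, e₁]
    push_cast
    exact max_eq_right (by linarith [Nat.cast_nonneg (α := ℝ) p.1])
  have hm2 : ∀ p, mn (e₂ p) = (p.2 : ℝ) + p.1 := by
    intro p
    simp only [mn, e₂]
    push_cast
    exact max_eq_left (by linarith [Nat.cast_nonneg (α := ℝ) p.1])
  let f : ℕ × ℕ → ℝ := fun p => q p / (1 + mn p) ^ 2
  have hf0 : ∀ p, 0 ≤ f p := fun p => div_nonneg (hq p) (by positivity)
  have hf1 : Summable (f ∘ e₁) := by
    refine Summable.of_nonneg_of_le (fun p => hf0 _) (fun p => ?_) hF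
    show q (e₁ p) / (1 + mn (e₁ p)) ^ 2 ≤ _
    rw [hm1, ← add_assoc]
    exact div_le_div_of_nonneg_right (h1 _ _) (by positivity)
  have hf2 : Summable (f ∘ e₂) := by
    refine Summable.of_nonneg_of_le (fun p => hf0 _) (fun p => ?_) hF
    show q (e₂ p) / (1 + mn (e₂ p)) ^ 2 ≤ _
    rw [hm2, ← add_assoc]
    exact div_le_div_of_nonneg_right (h2 _ _) (by positivity)
  have hg1 : Summable ((range e₁).indicator f) := by
    rw [← he₁.summable_iff fun x hx => indicator_of_notMem hx _]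
    refine hf1.congr fun p => ?_
    exact (indicator_of_mem (mem_range_self p) f).symm
  have hg2 : Summable ((range e₂).indicator f) := by
    rw [← he₂.summable_iff fun x hx => indicator_of_notMem hx _]
    refine hf2.congr fun p => ?_
    exact (indicator_of_mem (mem_range_self p) f).symm
  refine Summable.of_nonneg_of_le hf0 (fun p => ?_) (hg1.add hg2)
  rcases le_total p.1 p.2 with h | h
  · have hp : p ∈ range e₁ := ⟨(p.2 - p.1, p.1), by
      ext
      · rfl
      · show p.1 + (p.2 - p.1) = p.2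
        omega⟩
    rw [indicator_of_mem hp]
    exact le_add_of_nonneg_right (indicator_nonneg (fun x _ => hf0 x) _)
  · have hp : p ∈ range e₂ := ⟨(p.1 - p.2, p.2), by
      ext
      · show p.2 + (p.1 - p.2) = p.1
        omega
      · rfl⟩
    rw [indicator_of_mem hp]
    exact le_add_of_nonneg_left (indicator_nonneg (fun x _ => hf0 x) _)

/-- Kronecker. -/
theorem kron {a : ℕ → ℝ} (h0 : ∀ n, 0 ≤ a n) (hs : Summable fun n : ℕ => a n / ((n : ℝ) + 1)) :
    Tendsto (fun N : ℕ => avr (Finset.Icc 1 N) a) atTop (𝓝 0) := by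
  have h1 : Summable fun n : ℕ => a (n + 1) / ((n : ℝ) + 1) := by
    have h2 := ((summable_nat_add_iff 1).mpr hs).mul_left 2
    refine Summable.of_nonneg_of_le (fun n => div_nonneg (h0 _) (by positivity)) (fun n => ?_) h2
    show a (n + 1) / ((n : ℝ) + 1) ≤ 2 * (a (n + 1) / (((n + 1 : ℕ) : ℝ) + 1))
    push_cast
    rw [← mul_div_assoc, div_le_div_iff₀ (by positivity) (by positivity), mul_comm 2, mul_assoc]
    refine mul_le_mul_of_nonneg_left ?_ (h0 _)
    have : (0 : ℝ) ≤ n := Nat.cast_nonneg n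
    linarith
  refine (Pool.Agent.TH739.Poi.kron (fun n => h0 (n + 1)) h1).congr fun N => ?_
  unfold avr Pool.Agent.TH739.Poi.Av
  rw [Nat.card_Icc, Nat.add_sub_cancel, Finset.range_eq_Ico,
    Finset.sum_Ico_add' a 0 N 1, zero_add]
  rfl

end Pool.Agent.TH739.PS
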