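import Mathlib
import Pool.Agent.TH739.PS.Num

/-!
# Skew products, overlaps
-/

set_option autoImplicit false

open Filter Topology MeasureTheory Set
open scoped ENNReal NNReal symmDiff

noncomputable section

namespace Pool.Agent.TH739.PS

open Pool.Agent.TH739.PA (av avr LP Good)
open Pool.Agent.TH739.Poi (IsVoid)

/-- the skew product over `S` with the fibre maps `θ x` -/
def sk {X W : Type} (S : X → X) (θ : X → W → W) (z : X × W) : X × W := (S z.1, θ z.1 z.2)

/-- the composition of the fibre maps along the orbit -/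
def it {X W : Type} (S : X → X) (θ : X → W → W) (n : ℕ) (x : X) (w : W) : W :=
  ((sk S θ)^[n] (x, w)).2

theorem sk_fst {X W : Type} (S : X → X) (θ : X → W → W) (n : ℕ) (z : X × W) :
    ((sk S θ)^[n] z).1 = S^[n] z.1 := by
  induction n with
  | zero => rfl
  | succ n ih => rw [Function.iterate_succ_apply', Function.iterate_succ_apply', ← ih, sk]

theorem sk_iter {X W : Type} (S : X → X) (θ : X → W → W) (n : ℕ) (x : X) (w : W) :
    (sk S θ)^[n] (x, w) = (S^[n] x, it S θ n x w) :=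
  Prod.ext (sk_fst S θ n (x, w)) rfl

theorem it_zero {X W : Type} (S : X → X) (θ : X → W → W) (x : X) : it S θ 0 x = id := rfl

theorem it_succ {X W : Type} (S : X → X) (θ : X → W → W) (n : ℕ) (x : X) :
    it S θ (n + 1) x = θ (S^[n] x) ∘ it S θ n x := by
  funext w
  show ((sk S θ)^[n + 1] (x, w)).2 = _
  rw [Function.iterate_succ_apply', sk_iter]
  rfl

variable {X Y W : Type} [MeasurableSpace X] [MeasurableSpace Y] [MeasurableSpace W]
  {μ : Measure X} {ν : Measure Y} {κ : Measure W}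

theorem ae_iter {S : X → X} (hS : MeasurePreserving S μ μ) {p : X → Prop} (h : ∀ᵐ x ∂μ, p x) :
    ∀ᵐ x ∂μ, ∀ n, p (S^[n] x) :=
  ae_all_iff.mpr fun n => (hS.iterate n).quasiMeasurePreserving.ae h

theorem it_mp {S : X → X} (hS : MeasurePreserving S μ μ) {θ : X → W → W}
    (hθ : ∀ᵐ x ∂μ, MeasurePreserving (θ x) κ κ) :
    ∀ᵐ x ∂μ, ∀ n, MeasurePreserving (it S θ n x) κ κ := by
  filter_upwards [ae_iter hS hθ] with x hx n
  induction n with
  | zero => exact MeasurePreserving.id κ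
  | succ n ih =>
    rw [it_succ]
    exact (hx n).comp ih

theorem sk_mp [IsProbabilityMeasure μ] [SFinite κ] {S : X → X} (hS : MeasurePreserving S μ μ)
    {θ : X → W → W} (hm : Measurable fun p : X × W => θ p.1 p.2)
    (hθ : ∀ᵐ x ∂μ, MeasurePreserving (θ x) κ κ) :
    MeasurePreserving (sk S θ) (μ.prod κ) (μ.prod κ) :=
  hS.skew_product hm (hθ.mono fun _ h => h.map_eq)

/-- the relative overlaps -/
def ov (μ : Measure X) (κ : Measure W) (R : X × W → X × W) (A B : Set W) (h : ℕ) : ℝ :=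
  (μ.prod κ).real ((univ ×ˢ A) ∩ R^[h] ⁻¹' (univ ×ˢ B))

theorem ov_nonneg (R : X × W → X × W) (A B : Set W) (h : ℕ) : 0 ≤ ov μ κ R A B h :=
  measureReal_nonneg

/-- Integral of the measures of the sections. -/
theorem int_sec [SFinite κ] {B : Set (X × W)} (hB : MeasurableSet B) (hBf : (μ.prod κ) B ≠ ∞) :
    ∫ x, κ.real (Prod.mk x ⁻¹' B) ∂μ = (μ.prod κ).real B := by
  rw [measureReal_def, Measure.prod_apply hB]
  refine integral_toReal (measurable_measure_prodMk_left hB).aemeasurable ?_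
  rw [Measure.prod_apply hB] at hBf
  exact ae_lt_top (measurable_measure_prodMk_left hB) hBf

omit [MeasurableSpace X] [MeasurableSpace W] in
theorem sec_eq (S : X → X) (θ : X → W → W) (n : ℕ) (A : Set W) (x : X) :
    it S θ n x ⁻¹' A = Prod.mk x ⁻¹' ((sk S θ)^[n] ⁻¹' (univ ×ˢ A)) := by
  ext w
  simp only [mem_preimage, sk_iter, mem_prod, mem_univ, true_and]

section ovl

variable [IsProbabilityMeasure μ] [SFinite κ] {S : X → X} (hS : MeasurePreserving S μ μ)
    {θ : X → W → W} (hm : Measurable fun p : X × W => θ p.1 p.2)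
    (hθ : ∀ᵐ x ∂μ, MeasurePreserving (θ x) κ κ) {A B : Set W}
    (hA : MeasurableSet A) (hB : MeasurableSet B) (hAf : κ A ≠ ∞) (hBf : κ B ≠ ∞)

include hS hm hθ hA hB in
theorem ovl_meas (p q : ℕ) :
    Measurable fun x => κ.real (it S θ p x ⁻¹' A ∩ it S θ q x ⁻¹' B) := by
  have hR := sk_mp hS hm hθ
  have h1 : MeasurableSet ((sk S θ)^[p] ⁻¹' (univ ×ˢ A) ∩ (sk S θ)^[q] ⁻¹' (univ ×ˢ B)) :=
    ((hR.iterate p).measurable (MeasurableSet.univ.prod hA)).inter
      ((hR.iterate q).measurable (MeasurableSet.univ.prod hB))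
  have h2 : (fun x => κ.real (it S θ p x ⁻¹' A ∩ it S θ q x ⁻¹' B)) = fun x =>
      (κ (Prod.mk x ⁻¹' ((sk S θ)^[p] ⁻¹' (univ ×ˢ A) ∩
        (sk S θ)^[q] ⁻¹' (univ ×ˢ B)))).toReal := by
    funext x
    rw [sec_eq, sec_eq, ← preimage_inter, measureReal_def]
  rw [h2]
  exact (measurable_measure_prodMk_left h1).ennreal_toReal

include hS hm hθ hA hB hAf in
theorem ovl_int (p h : ℕ) :
    ∫ x, κ.real (it S θ p x ⁻¹' A ∩ it S θ (p + h) x ⁻¹' B) ∂μ = ov μ κ (sk S θ) A B h := by
  have hR := sk_mp hS hm hθ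
  have hA' : MeasurableSet ((univ : Set X) ×ˢ A) := MeasurableSet.univ.prod hA
  have hB' : MeasurableSet ((univ : Set X) ×ˢ B) := MeasurableSet.univ.prod hB
  have h0 : (sk S θ)^[p] ⁻¹' (univ ×ˢ A) ∩ (sk S θ)^[p + h] ⁻¹' (univ ×ˢ B) =
      (sk S θ)^[p] ⁻¹' ((univ ×ˢ A) ∩ (sk S θ)^[h] ⁻¹' (univ ×ˢ B)) := by
    rw [preimage_inter, ← preimage_comp, ← Function.iterate_add, add_comm h p]
  have h1 : MeasurableSet (((univ : Set X) ×ˢ A) ∩ (sk S θ)^[h] ⁻¹' (univ ×ˢ B)) :=
    hA'.inter ((hR.iterate h).measurable hB')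
  have h3 : (μ.prod κ) (((univ : Set X) ×ˢ A) ∩ (sk S θ)^[h] ⁻¹' (univ ×ˢ B)) ≠ ∞ := by
    refine ne_top_of_le_ne_top ?_ (measure_mono inter_subset_left)
    rw [Measure.prod_prod, measure_univ, one_mul]
    exact hAf
  simp only [sec_eq, ← preimage_inter]
  rw [h0, int_sec ((hR.iterate p).measurable h1), ov, measureReal_def, measureReal_def,
    (hR.iterate p).measure_preimage h1.nullMeasurableSet]
  rw [(hR.iterate p).measure_preimage h1.nullMeasurableSet]
  exact h3

omit [IsProbabilityMeasure μ] [SFinite κ] in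
include hS hθ hA in
theorem ovl_le : ∀ᵐ x ∂μ, ∀ p (C : Set W), κ A ≠ ∞ →
    κ.real (it S θ p x ⁻¹' A ∩ C) ≤ κ.real A := by
  filter_upwards [it_mp hS hθ] with x hx p C hAf
  have h1 : κ (it S θ p x ⁻¹' A) = κ A := (hx p).measure_preimage hA.nullMeasurableSet
  refine (measureReal_mono inter_subset_left (by rw [h1]; exact hAf)).trans (le_of_eq ?_)
  rw [measureReal_def, h1, measureReal_def]

include hS hm hθ hA hAf in
/-- Summability of the overlaps of one set along almost every orbit. -/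
theorem ae_self (hs : Summable fun h : ℕ => ov μ κ (sk S θ) A A h / ((h : ℝ) + 1)) {a : ℕ}
    (ha : 0 < a) : ∀ᵐ x ∂μ, Summable fun p : ℕ × ℕ =>
      κ.real (it S θ (a * p.1) x ⁻¹' A ∩ it S θ (a * p.2) x ⁻¹' A) / (1 + mn p) ^ 2 := by
  refine ae_summable (C := κ.real A) (fun p => (ovl_meas hS hm hθ hA hA _ _).div_const _)
    (fun p x => div_nonneg measureReal_nonneg (by positivity)) (fun p => ?_) ?_
  · filter_upwards [ovl_le hS hθ hA] with x hx
    refine (div_le_self measureReal_nonneg ?_).trans (hx _ _ hAf)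
    have := mn_nonneg p
    nlinarith
  · simp only [integral_div]
    have hr := sub_summable (fun h => ov_nonneg (sk S θ) A A h) hs ha
    refine sum_diff (r := fun h => ov μ κ (sk S θ) A A (a * h)) (fun h => ov_nonneg _ _ _ _) hr
      (fun p => integral_nonneg fun x => measureReal_nonneg) (fun n h => ?_) fun n h => ?_
    · show ∫ x, κ.real (it S θ (a * n) x ⁻¹' A ∩ it S θ (a * (n + h)) x ⁻¹' A) ∂μ ≤ _
      rw [mul_add, ovl_int hS hm hθ hA hA hAf]
    · show ∫ x, κ.real (it S θ (a * (n + h)) x ⁻¹' A ∩ it S θ (a * n) x ⁻¹' A) ∂μ ≤ _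
      simp only [inter_comm (it S θ (a * (n + h)) _ ⁻¹' A)]
      rw [mul_add, ovl_int hS hm hθ hA hA hAf]

include hS hm hθ hA hB hAf in
theorem ae_cross_lt (hs : Summable fun h : ℕ => ov μ κ (sk S θ) A B h / ((h : ℝ) + 1))
    {a b : ℕ} (hab : a < b) : ∀ᵐ x ∂μ, Tendsto (fun N : ℕ => avr (Finset.Icc 1 N) fun n =>
      κ.real (it S θ (a * n) x ⁻¹' A ∩ it S θ (b * n) x ⁻¹' B)) atTop (𝓝 0) := by
  have h1 : ∀ᵐ x ∂μ, Summable fun n : ℕ =>
      κ.real (it S θ (a * n) x ⁻¹' A ∩ it S θ (b * n) x ⁻¹' B) / ((n : ℝ) + 1) := by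
    refine ae_summable (C := κ.real A) (fun p => (ovl_meas hS hm hθ hA hB _ _).div_const _)
      (fun p x => div_nonneg measureReal_nonneg (by positivity)) (fun p => ?_) ?_
    · filter_upwards [ovl_le hS hθ hA] with x hx
      refine (div_le_self measureReal_nonneg ?_).trans (hx _ _ hAf)
      have : (0 : ℝ) ≤ p := Nat.cast_nonneg p
      linarith
    · have hr := sub_summable (fun h => ov_nonneg (sk S θ) A B h) hs (Nat.sub_pos_of_lt hab)
      refine hr.congr fun n => ?_
      rw [integral_div]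
      congr 1
      have e : b * n = a * n + (b - a) * n := by
        rw [← add_mul, Nat.add_sub_cancel' hab.le]
      rw [e, ovl_int hS hm hθ hA hB hAf]
  filter_upwards [h1] with x hx
  exact kron (fun n => measureReal_nonneg) hx

include hS hm hθ hA hB hAf hBf in
/-- The overlaps of two sets along almost every orbit tend to zero in the mean. -/
theorem ae_cross (hs : Summable fun h : ℕ => ov μ κ (sk S θ) A B h / ((h : ℝ) + 1))
    (hs' : Summable fun h : ℕ => ov μ κ (sk S θ) B A h / ((h : ℝ) + 1))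
    {a b : ℕ} (hab : a ≠ b) : ∀ᵐ x ∂μ, Tendsto (fun N : ℕ => avr (Finset.Icc 1 N) fun n =>
      κ.real (it S θ (a * n) x ⁻¹' A ∩ it S θ (b * n) x ⁻¹' B)) atTop (𝓝 0) := by
  rcases lt_or_gt_of_ne hab with h | h
  · exact ae_cross_lt hS hm hθ hA hB hAf hs h
  · filter_upwards [ae_cross_lt hS hm hθ hB hA hBf hs' h] with x hx
    refine hx.congr fun N => ?_
    simp only [inter_comm]

end ovl

end Pool.Agent.TH739.PS
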