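import Mathlib
import Pool.Agent.TH739.PS.Rel

/-!
# The base is characteristic
-/

set_option autoImplicit false

open Filter Topology MeasureTheory Set
open scoped ENNReal NNReal symmDiff

noncomputable section

namespace Pool.Agent.TH739.PS

open Pool.Agent.TH739.PA (av avr LP Good pe ue var overlap_union union_real exp_diff ue_meas
  ue_abs real_E PZ pr bar bar_BM Qf PZ_step ext_all int_snd avr_add av_ofReal avr_abs avr_mono
  ind_BM)
open Pool.Agent.TH739.Poi (IsVoid fin_biUnion)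
open Pool.Agent.W761.Gauss (BM BM_of_memLp)

variable {X Y W : Type} [MeasurableSpace X] [MeasurableSpace Y] [MeasurableSpace W]
  {μ : Measure X} {ν : Measure Y} {κ : Measure W} {E : Set W → Set Y} {m : ℕ}

/-- The base case along one orbit. -/
theorem base_fixed {I ι : Type*} {𝔣 : Filter I} {Bx : I → Finset ι} [Countable ι]
    [IsProbabilityMeasure ν] (hE : IsVoid κ id ν id E)
    {C : Fin m → ι → Set W} (hC : ∀ j n, MeasurableSet (C j n)) {A : Fin m → Set W}
    (hCe : ∀ j n, κ (C j n) = κ (A j)) (hAf : ∀ j, κ (A j) ≠ ∞) {b : Fin m → ι → Y → Y}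
    (hb : ∀ j n, (b j n ⁻¹' E (A j) : Set Y) =ᵐ[ν] E (C j n))
    (hR : LP 𝔣 Bx fun p => m * ∑ j, κ.real (C j p.1 ∩ C j p.2))
    (hDg : ∀ i j, i ≠ j → Tendsto (fun N : I => avr (Bx N) fun n =>
      κ.real (C i n ∩ C j n)) 𝔣 (𝓝 0))
    {c : Fin m → ι → ℝ} (hc0 : ∀ j n, 0 ≤ c j n) (hc1 : ∀ j n, c j n ≤ 1) :
    ∀ᵐ y ∂ν, Tendsto (fun N => av (Bx N) fun n =>
      (((∏ j, c j n * (E (A j)).indicator (fun _ => (1 : ℝ)) (b j n y)) -
        ∏ j, c j n * pe κ (A j) : ℝ) : ℂ)) 𝔣 (𝓝 0) := by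
  have hCf : ∀ j n, κ (C j n) ≠ ∞ := fun j n => by
    rw [hCe]
    exact hAf j
  let D : ι → Set W := fun n => ⋃ j, C j n
  have hD : ∀ n, MeasurableSet (D n) := fun n => MeasurableSet.iUnion fun j => hC j n
  have hDf : ∀ n, κ (D n) ≠ ∞ := fun n => by
    have := fin_biUnion (ν := κ) (Finset.univ : Finset (Fin m)) (B := fun j => C j n)
      fun j => hCf j n
    simpa [D] using this
  let w : ι → ℝ := fun n => ∏ j, c j n
  have hw0 : ∀ n, 0 ≤ w n := fun n => Finset.prod_nonneg fun j _ => hc0 _ _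
  have hw1 : ∀ n, w n ≤ 1 := fun n => Finset.prod_le_one (fun j _ => hc0 _ _)
    fun j _ => hc1 _ _
  have hwa : ∀ n, |w n| ≤ 1 := fun n => by
    rw [abs_of_nonneg (hw0 n)]
    exact hw1 n
  -- the centered part
  have h1 := hR Y inferInstance ν inferInstance
    (fun n y => w n * ue κ E (D n) y) (fun n => (ue_meas hE (hD n) (hDf n)).const_mul _)
    (fun n z => by
      rw [abs_mul]
      exact mul_le_one₀ (hwa n) (abs_nonneg _) (ue_abs _ _ _ _))
    (fun N => by
      have h2 := var (μ := ν) hE (Bx N) (w := fun n _ => w n) (fun n => measurable_const)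
        (fun n _ => hwa n) hD hDf
      have h3 := int_snd (μ := ν) (ν := ν) fun y => (∑ n ∈ Bx N, w n * ue κ E (D n) y) ^ 2
      rw [h3] at h2
      refine h2.trans ?_
      refine (overlap_union (Bx N) hC hCf).trans (le_of_eq ?_)
      rw [← Finset.mul_sum, Finset.sum_comm])
  -- the expectations
  have h2 : Tendsto (fun N : I => avr (Bx N) fun n =>
      w n * (pe κ (D n) - ∏ j, pe κ (A j))) 𝔣 (𝓝 0) := by
    have h3 : Tendsto (fun N : I => ∑ i, ∑ j, avr (Bx N) fun n =>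
        if i ≠ j then κ.real (C i n ∩ C j n) else 0) 𝔣 (𝓝 0) := by
      have h4 : (0 : ℝ) = ∑ _i : Fin m, ∑ _j : Fin m, 0 := by simp
      rw [h4]
      refine tendsto_finsetSum _ fun i _ => tendsto_finsetSum _ fun j _ => ?_
      by_cases hij : i ≠ j
      · simp only [if_pos hij]
        exact hDg i j hij
      · simp only [if_neg hij]
        refine tendsto_const_nhds.congr fun N => ?_
        simp [avr]
    refine squeeze_zero_norm (fun N => ?_) h3
    rw [Real.norm_eq_abs]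
    refine (avr_abs _ _).trans ?_
    have e3 : ∑ i, ∑ j, avr (Bx N) (fun n =>
        if i ≠ j then κ.real (C i n ∩ C j n) else 0) = avr (Bx N) fun n =>
        ∑ i, ∑ j, if i ≠ j then κ.real (C i n ∩ C j n) else 0 := by
      unfold avr
      rw [Finset.sum_comm' (t' := Finset.univ) (s' := fun _ => Bx N)
        (by simp), Finset.mul_sum]
      refine Finset.sum_congr rfl fun i _ => ?_
      rw [Finset.sum_comm, Finset.mul_sum]
    rw [e3]
    refine avr_mono fun n _ => ?_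
    rw [abs_mul]
    refine (mul_le_of_le_one_left (abs_nonneg _) (hwa n)).trans ?_
    have h5 := union_real (κ := κ) (C := fun j => C j n) (fun j => hC j n) (fun j => hCf j n)
    have e4 : ∏ j, pe κ (A j) = Real.exp (-(∑ j, κ.real (C j n))) := by
      unfold pe
      rw [← Real.exp_sum, Finset.sum_neg_distrib]
      congr 2
      refine Finset.sum_congr rfl fun j _ => ?_
      rw [measureReal_def, measureReal_def, hCe]
    rw [e4]
    refine (exp_diff measureReal_nonneg h5.1).trans ?_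
    linarith [h5.2]
  -- identification of the products
  have h6 : ∀ᵐ y ∂ν, ∀ n, (y ∈ E (D n)) ↔ ∀ j, b j n y ∈ E (A j) := by
    rw [ae_all_iff]
    intro n
    have h7 := hE.biUnion (Finset.univ : Finset (Fin m)) (fun j => hC j n) (fun j => hCf j n)
    have h8 : ∀ᵐ y ∂ν, ∀ j : Fin m, (y ∈ E (C j n)) ↔ b j n y ∈ E (A j) := by
      rw [ae_all_iff]
      intro j
      filter_upwards [hb j n] with y hy
      exact (Iff.of_eq hy).symm
    filter_upwards [h7, h8] with y hy hy'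
    have h9 : (y ∈ E (⋃ i ∈ (Finset.univ : Finset (Fin m)), C i n)) ↔
        y ∈ ⋂ i ∈ (Finset.univ : Finset (Fin m)), E (C i n) := Iff.of_eq hy
    have h10 : (⋃ i ∈ (Finset.univ : Finset (Fin m)), C i n) = D n := by simp [D]
    rw [h10] at h9
    rw [h9]
    simp only [Finset.mem_univ, iInter_true, mem_iInter]
    exact forall_congr' hy'
  filter_upwards [h1, h6] with y hz hz'
  have h11 := hz.add h2
  rw [add_zero] at h11
  have h12 := (Complex.continuous_ofReal.tendsto _).comp h11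
  rw [Complex.ofReal_zero] at h12
  refine h12.congr fun N => ?_
  simp only [Function.comp_apply]
  rw [← avr_add, ← av_ofReal]
  congr 1
  funext n
  congr 1
  have e5 : ∏ j, c j n * (E (A j)).indicator (fun _ => (1 : ℝ)) (b j n y) =
      w n * (E (D n)).indicator (fun _ => (1 : ℝ)) y := by
    rw [Finset.prod_mul_distrib]
    congr 1
    by_cases hc : ∀ j, b j n y ∈ E (A j)
    · rw [indicator_of_mem ((hz' n).mpr hc)]
      exact Finset.prod_eq_one fun j _ => indicator_of_mem (hc j) _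
    · rw [indicator_of_notMem fun h => hc ((hz' n).mp h)]
      rw [not_forall] at hc
      obtain ⟨j, hj⟩ := hc
      exact Finset.prod_eq_zero (Finset.mem_univ j) (indicator_of_notMem hj _)
  rw [e5, Finset.prod_mul_distrib]
  show w n * ue κ E (D n) y + w n * (pe κ (D n) - ∏ j, pe κ (A j)) = _
  unfold ue
  ring

/-- The void events along the orbits. -/
theorem it_void {S : X → X} (hS : MeasurePreserving S μ μ) {θ : X → W → W} {ψ : X → Y → Y}
    (hθ : ∀ᵐ x ∂μ, MeasurePreserving (θ x) κ κ) (hψ : ∀ᵐ x ∂μ, MeasurePreserving (ψ x) ν ν)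
    (hv : ∀ᵐ x ∂μ, ∀ A, MeasurableSet A → κ A ≠ ∞ → (ψ x ⁻¹' E A : Set Y) =ᵐ[ν] E (θ x ⁻¹' A)) :
    ∀ᵐ x ∂μ, ∀ n A, MeasurableSet A → κ A ≠ ∞ →
      (it S ψ n x ⁻¹' E A : Set Y) =ᵐ[ν] E (it S θ n x ⁻¹' A) := by
  filter_upwards [ae_iter hS hθ, ae_iter hS hv, it_mp hS hψ] with x h1 h2 h3 n
  induction n with
  | zero =>
    intro A _ _
    exact EventuallyEq.refl _ (E A)
  | succ n ih =>
    intro A hA hAf
    rw [it_succ, it_succ, preimage_comp, preimage_comp]
    have h4 := (h3 n).quasiMeasurePreserving.preimage_ae_eq (h2 n A hA hAf)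
    refine h4.trans (ih _ ((h1 n).measurable hA) ?_)
    rw [(h1 n).measure_preimage hA.nullMeasurableSet]
    exact hAf

/-- one-sided averages of one function along multiples -/
theorem good_mul {Z : Type} [MeasurableSpace Z] {P : Measure Z} [IsProbabilityMeasure P]
    {T : Z → Z} (hT : MeasurePreserving T P P) (a : ℕ) :
    Good atTop (fun N : ℕ => Finset.Icc 1 N) P (fun (n : ℕ) (z : Z) => T^[a * n] z) := by
  intro H hH ⟨C, hC⟩
  have hTa := hT.iterate a
  have h1 := hTa.quasiMeasurePreserving.ae (H165R3.BPE.birkhoff hTa H hH C hC)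
  filter_upwards [h1] with z hz
  refine ⟨_, hz.congr fun N => ?_⟩
  have e : ∀ k : ℕ, (T^[a])^[k] (T^[a] z) = T^[a * (k + 1)] z := fun k => by
    rw [Function.iterate_mul, Function.iterate_succ_apply]
  simp only [e]
  unfold avr
  rw [Nat.card_Icc, Nat.add_sub_cancel, Finset.range_eq_Ico, Finset.sum_Ico_add'
    (fun n => H (T^[a * n] z)) 0 N 1, zero_add]
  rfl

section main

variable [IsProbabilityMeasure μ] [IsProbabilityMeasure ν] [SFinite κ]
  {S : X → X} {θ : X → W → W} {ψ : X → Y → Y}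

/-- The basic functions. -/
theorem PZ_base_rel (hE : IsVoid κ id ν id E) (hS : MeasurePreserving S μ μ)
    (hθm : Measurable fun p : X × W => θ p.1 p.2) (hψm : Measurable fun p : X × Y => ψ p.1 p.2)
    (hθ : ∀ᵐ x ∂μ, MeasurePreserving (θ x) κ κ) (hψ : ∀ᵐ x ∂μ, MeasurePreserving (ψ x) ν ν)
    (hv : ∀ᵐ x ∂μ, ∀ A, MeasurableSet A → κ A ≠ ∞ → (ψ x ⁻¹' E A : Set Y) =ᵐ[ν] E (θ x ⁻¹' A))
    {a : Fin m → ℕ} (ha : ∀ j, 0 < a j) (hai : Function.Injective a)
    {A : Fin m → Set W} (hA : ∀ j, MeasurableSet (A j)) (hAf : ∀ j, κ (A j) ≠ ∞)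
    (hs : ∀ i j, Summable fun h : ℕ => ov μ κ (sk S θ) (A i) (A j) h / ((h : ℝ) + 1))
    {D : Fin m → Set X} (hD : ∀ j, MeasurableSet (D j)) :
    PZ atTop (fun N : ℕ => Finset.Icc 1 N) μ ν (fun j n => (sk S ψ)^[a j * n])
      (fun j => (D j ×ˢ E (A j)).indicator fun _ => (1 : ℂ)) := by
  have hT := sk_mp hS hψm hψ
  have hF : ∀ j, BM ((D j ×ˢ E (A j)).indicator fun _ => (1 : ℂ)) := fun j =>
    ind_BM ((hD j).prod (hE.meas _ (hA j) (hAf j))) 1
  have hmeas : ∀ F : Fin m → X × Y → ℂ, (∀ j, BM (F j)) → ∀ n : ℕ,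
      Measurable (pr (fun j n => (sk S ψ)^[a j * n]) F n) := fun F hF n =>
    Finset.measurable_fun_prod _ fun j _ => (hF j).1.comp (hT.iterate _).measurable
  refine (Measure.ae_prod_mem_iff_ae_ae_mem (μ := μ) (ν := ν)
    (s := {z : X × Y | Tendsto (fun N : ℕ => av (Finset.Icc 1 N) fun n =>
      pr (fun j n => (sk S ψ)^[a j * n]) (fun j => (D j ×ˢ E (A j)).indicator fun _ => (1 : ℂ)) n z -
      pr (fun j n => (sk S ψ)^[a j * n]) (fun l => bar ν ((D l ×ˢ E (A l)).indicator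
        fun _ => (1 : ℂ))) n z) atTop (𝓝 0)}) ?_).mpr ?_
  · refine measurableSet_tendsto_fun (fun N => ?_) measurable_const
    unfold av
    exact (Finset.measurable_fun_sum _ fun n _ => (hmeas _ hF n).sub
      (hmeas _ (fun j => bar_BM (hF j)) n)).const_mul _
  have h1 : ∀ᵐ x ∂μ, ∀ j, Summable fun p : ℕ × ℕ =>
      κ.real (it S θ (a j * p.1) x ⁻¹' A j ∩ it S θ (a j * p.2) x ⁻¹' A j) / (1 + mn p) ^ 2 :=
    ae_all_iff.mpr fun j => ae_self hS hθm hθ (hA j) (hAf j) (hs j j) (ha j)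
  have h2 : ∀ᵐ x ∂μ, ∀ i j, i ≠ j → Tendsto (fun N : ℕ => avr (Finset.Icc 1 N) fun n =>
      κ.real (it S θ (a i * n) x ⁻¹' A i ∩ it S θ (a j * n) x ⁻¹' A j)) atTop (𝓝 0) := by
    refine ae_all_iff.mpr fun i => ae_all_iff.mpr fun j => ?_
    by_cases hij : i = j
    · exact Eventually.of_forall fun x h => absurd hij h
    · filter_upwards [ae_cross hS hθm hθ (hA i) (hA j) (hAf i) (hAf j) (hs i j) (hs j i)
        fun h => hij (hai h)] with x hx _
      exact hx
  filter_upwards [h1, h2, it_mp hS hθ, it_void hS hθ hψ hv] with x hx1 hx2 hx3 hx4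
  have h3 := base_fixed (m := m) (𝔣 := atTop) (Bx := fun N : ℕ => Finset.Icc 1 N) hE
    (C := fun j n => it S θ (a j * n) x ⁻¹' A j) (fun j n => (hx3 _).measurable (hA j))
    (A := A) (fun j n => (hx3 _).measure_preimage (hA j).nullMeasurableSet) hAf
    (b := fun j n => it S ψ (a j * n) x) (fun j n => hx4 _ _ (hA j) (hAf j))
    (by
      refine LP_Icc (fun p => mul_nonneg (Nat.cast_nonneg _)
        (Finset.sum_nonneg fun j _ => measureReal_nonneg)) ?_
      have h2 := (summable_sum (s := Finset.univ) fun j _ => hx1 j).mul_left (m : ℝ)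
      refine h2.congr fun p => ?_
      rw [← Finset.sum_div, mul_div_assoc]) hx2
    (c := fun j n => (D j).indicator (fun _ => (1 : ℝ)) (S^[a j * n] x))
    (fun j n => indicator_nonneg (fun _ _ => zero_le_one) _)
    (fun j n => indicator_le_self' (fun _ _ => zero_le_one) _)
  filter_upwards [h3] with y hy
  refine hy.congr fun N => ?_
  congr 1
  funext n
  have e5 : pr (fun j n => (sk S ψ)^[a j * n])
      (fun j => (D j ×ˢ E (A j)).indicator fun _ => (1 : ℂ)) n (x, y) =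
      ((∏ j, (D j).indicator (fun _ => (1 : ℝ)) (S^[a j * n] x) *
        (E (A j)).indicator (fun _ => (1 : ℝ)) (it S ψ (a j * n) x y) : ℝ) : ℂ) := by
    unfold pr
    rw [Complex.ofReal_prod]
    refine Finset.prod_congr rfl fun j _ => ?_
    show (D j ×ˢ E (A j)).indicator (fun _ => (1 : ℂ)) ((sk S ψ)^[a j * n] (x, y)) = _
    rw [sk_iter]
    by_cases c1 : S^[a j * n] x ∈ D j <;> by_cases c2 : it S ψ (a j * n) x y ∈ E (A j) <;>
      simp [c1, c2, Set.indicator]
  have e7 : pr (fun j n => (sk S ψ)^[a j * n])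
      (fun j => bar ν ((D j ×ˢ E (A j)).indicator fun _ => (1 : ℂ))) n (x, y) =
      ((∏ j, (D j).indicator (fun _ => (1 : ℝ)) (S^[a j * n] x) * pe κ (A j) : ℝ) : ℂ) := by
    unfold pr
    rw [Complex.ofReal_prod]
    refine Finset.prod_congr rfl fun j _ => ?_
    show bar ν ((D j ×ˢ E (A j)).indicator fun _ => (1 : ℂ)) ((sk S ψ)^[a j * n] (x, y)) = _
    rw [sk_iter]
    unfold bar
    have e9 : (fun y' => (D j ×ˢ E (A j)).indicator (fun _ => (1 : ℂ)) (S^[a j * n] x, y')) =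
        fun y' => (((D j).indicator (fun _ => (1 : ℝ)) (S^[a j * n] x) : ℝ) : ℂ) *
          (E (A j)).indicator (fun _ => (1 : ℂ)) y' := by
      funext y'
      by_cases c1 : S^[a j * n] x ∈ D j <;> by_cases c2 : y' ∈ E (A j) <;>
        simp [c1, c2, Set.indicator]
    simp only [e9]
    rw [integral_const_mul, integral_indicator_const _ (hE.meas _ (hA j) (hAf j)),
      real_E hE (hA j) (hAf j)]
    push_cast
    simp
  rw [e5, e7, ← Complex.ofReal_sub]

/-- **Bounded functions.** -/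
theorem PZ_rel (hE : IsVoid κ id ν id E) (hS : MeasurePreserving S μ μ)
    (hθm : Measurable fun p : X × W => θ p.1 p.2) (hψm : Measurable fun p : X × Y => ψ p.1 p.2)
    (hθ : ∀ᵐ x ∂μ, MeasurePreserving (θ x) κ κ) (hψ : ∀ᵐ x ∂μ, MeasurePreserving (ψ x) ν ν)
    (hv : ∀ᵐ x ∂μ, ∀ A, MeasurableSet A → κ A ≠ ∞ → (ψ x ⁻¹' E A : Set Y) =ᵐ[ν] E (θ x ⁻¹' A))
    {ℛ : Set (Set W)} (hℛ : ∀ A ∈ ℛ, MeasurableSet A ∧ κ A ≠ ∞)
    (hd : ∀ A, MeasurableSet A → κ A ≠ ∞ → ∀ ε : ℝ, 0 < ε → ∃ B ∈ ℛ, (κ (A ∆ B)).toReal ≤ ε)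
    (hs : ∀ A ∈ ℛ, ∀ B ∈ ℛ, Summable fun h : ℕ => ov μ κ (sk S θ) A B h / ((h : ℝ) + 1))
    {a : Fin m → ℕ} (ha : ∀ j, 0 < a j) (hai : Function.Injective a)
    {F : Fin m → X × Y → ℂ} (hF : ∀ j, BM (F j)) :
    PZ atTop (fun N : ℕ => Finset.Icc 1 N) μ ν (fun j n => (sk S ψ)^[a j * n]) F := by
  have hT := sk_mp hS hψm hψ
  refine ext_all (P := PZ atTop (fun N : ℕ => Finset.Icc 1 N) μ ν
    (fun j n => (sk S ψ)^[a j * n])) (𝒬 := Qf (X := X) E ℛ) ?_ ?_ ?_ hF
  · rintro e ⟨D, A, hD, hA, rfl⟩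
    exact ind_BM (hD.prod (hE.meas A (hℛ A hA).1 (hℛ A hA).2)) 1
  · intro f k hf hQ h hh
    exact PZ_step hE (fun j n => hT.iterate _) (fun j => good_mul hT (a j)) hℛ hd f k hf hQ h hh
  · intro f hf
    choose D A hD hA e using hf
    have : f = fun j => (D j ×ˢ E (A j)).indicator fun _ => (1 : ℂ) := funext e
    rw [this]
    exact PZ_base_rel hE hS hθm hψm hθ hψ hv ha hai (fun j => (hℛ _ (hA j)).1)
      (fun j => (hℛ _ (hA j)).2) (fun i j => hs _ (hA i) _ (hA j)) hD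

end main

end Pool.Agent.TH739.PS
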