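import Mathlib
import Pool.Agent.TH739.PS.Fix
import Pool.Agent.TH739.PA.Act
import Pool.Agent.TH739.Pois.System

/-!
# Poisson extensions
-/

set_option autoImplicit false

open Filter Topology MeasureTheory Set
open scoped ENNReal NNReal symmDiff

noncomputable section

namespace Pool.Agent.TH739.PS

open Pool.Agent.TH739.PA (av avr PZ pr bar bar_BM IsPoissonAction)
open Pool.Agent.TH739.Poi (IsVoid tail_red)
open Pool.Agent.W761.Gauss (BM BM_of_memLp)
open Pool.Agent.W761.Tail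

/-- The system `(X × Y, μ × ν)` with the map `T (x, y) = (S x, ψ x y)` is a Poisson suspension,
relative to the system `(X, μ, S)`, of the system `(X × W, μ × κ)` with the map
`R (x, w) = (S x, θ x w)`: for almost every `x` the fibre map `θ x` preserves the (typically
infinite) measure `κ`, and `ψ x` is the map induced by `θ x` on the Poisson point process `(Y, ν)`
with intensity `κ`, which is described by the void events `E A` (no point lies in `A`). -/
structure IsPoissonExtension {X W Y : Type} [MeasurableSpace X] [MeasurableSpace W]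
    [MeasurableSpace Y] (μ : Measure X) (S : X → X) (κ : Measure W) (θ : X → W → W)
    (ν : Measure Y) (ψ : X → Y → Y) : Prop where
  base : MeasurePreserving S μ μ
  meas : Measurable fun p : X × W => θ p.1 p.2
  meas' : Measurable fun p : X × Y => ψ p.1 p.2
  mp : ∀ᵐ x ∂μ, MeasurePreserving (θ x) κ κ
  mp' : ∀ᵐ x ∂μ, MeasurePreserving (ψ x) ν ν
  void : ∃ E : Set W → Set Y, IsVoid κ id ν id E ∧ ∀ᵐ x ∂μ, ∀ A, MeasurableSet A → κ A ≠ ∞ →
    (ψ x ⁻¹' E A : Set Y) =ᵐ[ν] E (θ x ⁻¹' A)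

/-- For all `A`, `B` in some family of sets of finite measure, which is dense among all such sets,
the measures `r h` of the sets `(X × A) ∩ R^{-h} (X × B)`, where `R (x, w) = (S x, θ x w)`, satisfy
`∑ r h / (h + 1) < ∞`. -/
def SummableOverlaps {X W : Type} [MeasurableSpace X] [MeasurableSpace W] (μ : Measure X)
    (S : X → X) (κ : Measure W) (θ : X → W → W) : Prop :=
  ∃ ℛ : Set (Set W), (∀ A ∈ ℛ, MeasurableSet A ∧ κ A ≠ ∞) ∧
    (∀ A, MeasurableSet A → κ A ≠ ∞ → ∀ ε : ℝ, 0 < ε → ∃ B ∈ ℛ, (κ (A ∆ B)).toReal ≤ ε) ∧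
    ∀ A ∈ ℛ, ∀ B ∈ ℛ, Summable fun h : ℕ => (μ.prod κ).real
      ((univ ×ˢ A) ∩ (sk S θ)^[h] ⁻¹' (univ ×ˢ B)) / ((h : ℝ) + 1)

/-- The averages `(1/N) ∑_{n=1}^N g_1 (S^n x) g_2 (S^{2n} x) ⋯ g_m (S^{mn} x)` converge for almost
every `x`, for all bounded measurable `g_1, …, g_m`. -/
def ConvAll (m : ℕ) {X : Type} [MeasurableSpace X] (μ : Measure X) (S : X → X) : Prop :=
  ∀ g : Fin m → X → ℂ, (∀ j, Measurable (g j)) → (∀ j, ∃ C : ℝ, ∀ x, ‖g j x‖ ≤ C) →
    ∀ᵐ x ∂μ, ∃ L : ℂ, Tendsto (fun N : ℕ => (N : ℂ)⁻¹ * ∑ n ∈ Finset.Icc 1 N,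
      ∏ j : Fin m, g j (S^[((j : ℕ) + 1) * n] x)) atTop (𝓝 L)

section main

variable {X Y W : Type} [MeasurableSpace X] [MeasurableSpace Y] [MeasurableSpace W]
  {μ : Measure X} {ν : Measure Y} {κ : Measure W} {m : ℕ}
  [IsProbabilityMeasure μ] [IsProbabilityMeasure ν] [SFinite κ]
  {S : X → X} {θ : X → W → W} {ψ : X → Y → Y}

omit [SFinite κ] in
theorem IsPoissonExtension.map (h : IsPoissonExtension μ S κ θ ν ψ) :
    MeasurePreserving (sk S ψ) (μ.prod ν) (μ.prod ν) := sk_mp h.base h.meas' h.mp'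

theorem IsPoissonExtension.PZ (h : IsPoissonExtension μ S κ θ ν ψ)
    (ho : SummableOverlaps μ S κ θ) {a : Fin m → ℕ} (ha : ∀ j, 0 < a j)
    (hai : Function.Injective a) {F : Fin m → X × Y → ℂ} (hF : ∀ j, BM (F j)) :
    PA.PZ atTop (fun N : ℕ => Finset.Icc 1 N) μ ν (fun j n => (sk S ψ)^[a j * n]) F := by
  obtain ⟨E, hE, hv⟩ := h.void
  obtain ⟨ℛ, h1, h2, h3⟩ := ho
  exact PZ_rel hE h.base h.meas h.meas' h.mp h.mp' hv h1 h2 h3 ha hai hF

/-- **The base is characteristic.** -/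
theorem IsPoissonExtension.char (h : IsPoissonExtension μ S κ θ ν ψ)
    (ho : SummableOverlaps μ S κ θ) {a : Fin m → ℕ} (ha : ∀ j, 0 < a j)
    (hai : Function.Injective a) {f : Fin m → X × Y → ℂ} (hf : ∀ j, MemLp (f j) ∞ (μ.prod ν)) :
    ∀ᵐ z ∂(μ.prod ν), Tendsto (fun N : ℕ => (N : ℂ)⁻¹ * ∑ n ∈ Finset.Icc 1 N,
      (∏ j, f j ((sk S ψ)^[a j * n] z) - ∏ j, ∫ y, f j (S^[a j * n] z.1, y) ∂ν))
      atTop (𝓝 0) := by
  choose F hF hfF using fun j => BM_of_memLp (hf j)
  have hT := h.map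
  have h0 := h.PZ ho ha hai hF
  have h1 : ∀ᵐ z ∂(μ.prod ν), ∀ n j, f j ((sk S ψ)^[a j * n] z) = F j ((sk S ψ)^[a j * n] z) := by
    rw [ae_all_iff]
    intro n
    rw [ae_all_iff]
    intro j
    exact (hT.iterate _).quasiMeasurePreserving.ae (hfF j)
  have h2 : ∀ j, ∀ᵐ x ∂μ, ∫ y, f j (x, y) ∂ν = ∫ y, F j (x, y) ∂ν := by
    intro j
    filter_upwards [Measure.ae_ae_of_ae_prod (hfF j)] with x hx
    exact integral_congr_ae hx
  have h3 : ∀ᵐ x ∂μ, ∀ n j, ∫ y, f j (S^[a j * n] x, y) ∂ν = ∫ y, F j (S^[a j * n] x, y) ∂ν := by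
    rw [ae_all_iff]
    intro n
    rw [ae_all_iff]
    intro j
    exact (h.base.iterate _).quasiMeasurePreserving.ae (h2 j)
  have h3' : ∀ᵐ z ∂(μ.prod ν), ∀ n j, ∫ y, f j (S^[a j * n] z.1, y) ∂ν =
      ∫ y, F j (S^[a j * n] z.1, y) ∂ν := Measure.quasiMeasurePreserving_fst.ae h3
  filter_upwards [h0, h1, h3'] with z hz hz1 hz2
  refine hz.congr fun N => ?_
  rw [PA.av, Nat.card_Icc, Nat.add_sub_cancel]
  congr 1
  refine Finset.sum_congr rfl fun n _ => ?_
  congr 1
  · exact Finset.prod_congr rfl fun j _ => (hz1 n j).symm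
  · refine Finset.prod_congr rfl fun j _ => ?_
    rw [hz2 n j]
    show ∫ y, F j (((sk S ψ)^[a j * n] z).1, y) ∂ν = _
    rw [sk_fst]

/-- Transfer of convergence. -/
theorem IsPoissonExtension.cvg (h : IsPoissonExtension μ S κ θ ν ψ)
    (ho : SummableOverlaps μ S κ θ) (hb : ConvAll m μ S) {g : Fin m → X × Y → ℂ}
    (hg : ∀ j, BM (g j)) : Cvg (μ.prod ν) (sk S ψ) g := by
  have h1 := h.char ho (a := fun j : Fin m => (j : ℕ) + 1) (fun j => Nat.succ_pos _)
    (fun i j hij => Fin.ext (Nat.succ_injective hij)) (f := g) fun j => by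
      obtain ⟨hm, C, hC⟩ := hg j
      exact memLp_top_of_bound hm.aestronglyMeasurable C (Eventually.of_forall hC)
  have h2 := hb (fun j x => ∫ y, g j (x, y) ∂ν)
    (fun j => (StronglyMeasurable.integral_prod_right' (ν := ν)
      (hg j).1.stronglyMeasurable).measurable) fun j => by
      obtain ⟨hm, C, hC⟩ := hg j
      refine ⟨C, fun x => ?_⟩
      have h3 := norm_integral_le_of_norm_le_const (μ := ν) (f := fun y => g j (x, y))
        (Eventually.of_forall fun y => hC (x, y))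
      simpa using h3
  filter_upwards [h1, Measure.quasiMeasurePreserving_fst.ae h2] with z hz hz'
  obtain ⟨L, hL⟩ := hz'
  refine ⟨0 + L, (hz.add hL).congr fun N => ?_⟩
  rw [← mul_add, ← Finset.sum_add_distrib, A]
  congr 1
  have h5 := Finset.sum_Ico_add' (fun n => ∏ j : Fin m, g j ((sk S ψ)^[((j : ℕ) + 1) * n] z)) 0 N 1
  rw [Finset.range_eq_Ico]
  refine (Finset.sum_congr rfl fun n _ => ?_).trans h5.symm
  ring

/-- **Convergence for systems whose tail comes from a Poisson extension.** -/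
theorem IsPoissonExtension.tail (h : IsPoissonExtension μ S κ θ ν ψ)
    (ho : SummableOverlaps μ S κ θ) (hb : ConvAll m μ S) {V Z : Type} {𝒜 : MeasurableSpace V}
    [mV : MeasurableSpace V] [MeasurableSpace Z] {P : Measure V} [IsProbabilityMeasure P]
    {ρ : Measure Z} {U : V → V} (hU : MeasurePreserving U P P) (h𝒜 : IsExhaustive P U 𝒜)
    {Q : Z → Z} (hQ : Measurable Q) {φ : V → Z} (hφ : MeasurePreserving φ P ρ)
    (hφU : ∀ᵐ v ∂P, φ (U v) = Q (φ v))
    (htail : ∀ B, IsTailSet P U 𝒜 B → ∃ D, MeasurableSet D ∧ B =ᵐ[P] φ ⁻¹' D)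
    {π : X × Y → Z} (hπ : MeasurePreserving π (μ.prod ν) ρ)
    (hπT : ∀ᵐ z ∂(μ.prod ν), π (sk S ψ z) = Q (π z))
    {f : Fin m → V → ℂ} (hf : ∀ j, MemLp (f j) ∞ P) :
    ∀ᵐ v ∂P, ∃ L : ℂ, Tendsto (fun N : ℕ => (N : ℂ)⁻¹ * ∑ n ∈ Finset.Icc 1 N,
      ∏ j : Fin m, f j (U^[((j : ℕ) + 1) * n] v)) atTop (𝓝 L) :=
  tail_red hU h𝒜 hQ hφ hφU htail h.map hπ hπT (fun _ hg => h.cvg ho hb hg) hf

end main

section ex

variable {X Y W G : Type} [MeasurableSpace X] [MeasurableSpace Y] [MeasurableSpace W] [Group G]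
  {μ : Measure X} {ν : Measure Y} {κ : Measure W}

/-- Poisson extensions given by a cocycle with values in a countable group, which acts on an
infinite measure space. -/
theorem of_cocycle [Countable G] [MeasurableSpace G] [DiscreteMeasurableSpace G]
    {Θ : G →* Equiv.Perm W} {Ψ : G →* Equiv.Perm Y} (h : IsPoissonAction κ Θ ν Ψ)
    {S : X → X} (hS : MeasurePreserving S μ μ) {c : X → G} (hc : Measurable c) :
    IsPoissonExtension μ S κ (fun x => Θ (c x)) ν (fun x => Ψ (c x)) where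
  base := hS
  meas := by
    have h1 : Measurable fun p : G × W => Θ p.1 p.2 :=
      measurable_from_prod_countable_right fun g => (h.base g).measurable
    exact h1.comp ((hc.comp measurable_fst).prodMk measurable_snd)
  meas' := by
    have h1 : Measurable fun p : G × Y => Ψ p.1 p.2 :=
      measurable_from_prod_countable_right fun g => (h.mp g).measurable
    exact h1.comp ((hc.comp measurable_fst).prodMk measurable_snd)
  mp := Eventually.of_forall fun x => h.base _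
  mp' := Eventually.of_forall fun x => h.mp _
  void := by
    obtain ⟨E, hE, hv⟩ := h.void
    exact ⟨E, hE, Eventually.of_forall fun x A hA hAf => hv _ A hA hAf⟩

end ex

end Pool.Agent.TH739.PS
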